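import Pool.Agent.H.MP_8b3296_mp.F

open MeasureTheory Set Filter Topology Metric
open scoped ENNReal NNReal RealInnerProductSpace

namespace Pool.Agent.H.MP_f7be6d_mp

open Pool.Agent.H.MP_8b3296_mp

noncomputable def hh (r : ℝ) : E → ℝ := (ball 0 r).indicator fun x => ‖x‖ ^ (-(5 / 2) : ℝ)

lemma hh_int (r : ℝ) : Integrable (hh r) :=
  (integrable_indicator_iff measurableSet_ball).2 (integrableOn_ball_of_norm_le_rpow
    (μ := (volume : Measure E)) (C := 1) (α := 5 / 2) (by simp) (by simp; norm_num)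
    (Eventually.of_forall fun x => by rw [one_mul, Real.norm_of_nonneg (by positivity)])
    (measurable_norm.pow_const _).aestronglyMeasurable)

lemma hh_nonneg (r : ℝ) (x : E) : 0 ≤ hh r x := indicator_nonneg (fun y _ => by positivity) x

lemma ptw {t Z r : ℝ} (ht : 0 ≤ t) (hZ : 0 ≤ Z) (hr : 0 < r) (x : E) :
    Z * (t / ‖x‖) ≤ 3 / 5 * t ^ (5 / 3 : ℝ) + Z ^ (5 / 2 : ℝ) * hh r x + Z * (t * (max ‖x‖ r)⁻¹) := by
  by_cases hx : x ∈ ball (0 : E) r
  · have h := Real.young_inequality_of_nonneg ht (show 0 ≤ Z * ‖x‖⁻¹ by positivity)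
      (p := 5 / 3) (q := 5 / 2) ⟨by norm_num, by norm_num, by norm_num⟩
    rw [Real.mul_rpow hZ (by positivity), Real.inv_rpow (norm_nonneg _),
      ← Real.rpow_neg (norm_nonneg _)] at h
    rw [hh, indicator_of_mem hx, div_eq_mul_inv]
    have h1 : 0 ≤ Z * (t * (max ‖x‖ r)⁻¹) := by positivity
    have h2 : 0 ≤ Z ^ (5 / 2 : ℝ) * ‖x‖ ^ (-(5 / 2) : ℝ) := by positivity
    linarith
  · rw [hh, indicator_of_notMem hx, max_eq_left (by simpa using hx), div_eq_mul_inv]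
    have : 0 ≤ t ^ (5 / 3 : ℝ) := by positivity
    linarith

structure TF (ρ : E → ℝ) : Prop where
  m : Measurable ρ
  p : ∀ x, 0 ≤ ρ x
  i : Integrable ρ
  j : Integrable fun x => ρ x ^ (5 / 3 : ℝ)

variable {ρ : E → ℝ}

lemma TF.iw (h : TF ρ) {r : ℝ} (hr : 0 < r) (a : E) :
    Integrable fun x => ρ x * (max ‖x - a‖ r)⁻¹ :=
  h.i.mul_bdd (c := r⁻¹) (Measurable.aestronglyMeasurable (by fun_prop))
    (Eventually.of_forall fun x => by
      rw [Real.norm_of_nonneg (by positivity)]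
      exact inv_anti₀ hr (le_max_right _ _))

lemma TF.iW (h : TF ρ) (a : E) : Integrable fun x => ρ x / ‖x - a‖ := by
  have hm := h.m
  refine (((h.j.const_mul (3 / 5)).add (((hh_int 1).comp_sub_right a).const_mul
    ((1 : ℝ) ^ (5 / 2 : ℝ)))).add ((h.iw one_pos a).const_mul 1)).mono'
    (Measurable.aestronglyMeasurable (by fun_prop)) (Eventually.of_forall fun x => ?_)
  rw [Real.norm_of_nonneg (div_nonneg (h.p x) (norm_nonneg _))]
  simpa using ptw (h.p x) zero_le_one one_pos (x - a)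

lemma TF.iD (h : TF ρ) : Integrable fun q : E × E => ρ q.1 * ρ q.2 / ‖q.1 - q.2‖ := by
  have hm := h.m
  have h1 : Integrable (fun q : E × E => ρ q.2 * hh 1 (q.1 - q.2)) (volume.prod volume) :=
    h.i.convolution_integrand (ContinuousLinearMap.mul ℝ ℝ) (hh_int 1)
  rw [Measure.volume_eq_prod]
  refine ((((h.j.const_mul (3 / 5)).mul_prod h.i).add h1).add (h.i.mul_prod h.i)).mono'
    (Measurable.aestronglyMeasurable (by fun_prop)) (Eventually.of_forall fun q => ?_)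
  have h2 := mul_le_mul_of_nonneg_left (ptw (h.p q.1) zero_le_one one_pos (q.1 - q.2)) (h.p q.2)
  have h3 : (max ‖q.1 - q.2‖ 1)⁻¹ ≤ 1 := inv_le_one_of_one_le₀ (le_max_right _ _)
  have h4 := mul_le_mul_of_nonneg_left h3 (mul_nonneg (h.p q.1) (h.p q.2))
  rw [Real.norm_of_nonneg (div_nonneg (mul_nonneg (h.p _) (h.p _)) (norm_nonneg _))]
  simp only [Pi.add_apply, Real.one_rpow, one_mul, div_eq_mul_inv] at h2 ⊢
  linarith

lemma TF.far (h : TF ρ) {r : ℝ} (hr : 0 < r) (a : E) :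
    (∫ x, ρ x * (max ‖x - a‖ r)⁻¹) ^ 2 ≤ 4 / r * D ρ := by
  have h1 := h.iD
  rw [Measure.volume_eq_prod] at h1
  rw [sq, ← integral_prod_mul, D, ← mul_assoc, Measure.volume_eq_prod, ← integral_const_mul]
  refine integral_mono_ae ((h.iw hr a).mul_prod (h.iw hr a)) (h1.const_mul _) ?_
  have h2 : ∀ᵐ q : E × E ∂volume.prod volume, q.2 ≠ q.1 :=
    (Measure.ae_prod_iff_ae_ae (measurableSet_eq_fun measurable_snd measurable_fst).compl).2
      (Eventually.of_forall fun x => Measure.ae_ne volume x)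
  filter_upwards [h2] with q hq
  have h3 : 0 < ‖q.1 - q.2‖ := norm_pos_iff.2 (sub_ne_zero.2 hq.symm)
  have h4 : ‖q.1 - q.2‖ ≤ ‖q.1 - a‖ + ‖q.2 - a‖ := by
    simpa using norm_sub_le (q.1 - a) (q.2 - a)
  have h5 := le_max_left ‖q.1 - a‖ r
  have h6 := le_max_right ‖q.1 - a‖ r
  have h7 := le_max_left ‖q.2 - a‖ r
  have h8 := le_max_right ‖q.2 - a‖ r
  have h9 : (max ‖q.1 - a‖ r)⁻¹ * (max ‖q.2 - a‖ r)⁻¹ ≤ 2 / r / ‖q.1 - q.2‖ := by
    rw [← mul_inv, inv_eq_one_div, div_div, div_le_div_iff₀ (by positivity) (by positivity)]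
    nlinarith [mul_nonneg (sub_nonneg.2 h6) (sub_nonneg.2 h8), mul_le_mul_of_nonneg_left h4 hr.le,
      mul_le_mul_of_nonneg_left h5 hr.le, mul_le_mul_of_nonneg_left h7 hr.le,
      mul_le_mul h6 h8 hr.le (hr.le.trans h6)]
  calc _ = ρ q.1 * ρ q.2 * ((max ‖q.1 - a‖ r)⁻¹ * (max ‖q.2 - a‖ r)⁻¹) := by ring
    _ ≤ ρ q.1 * ρ q.2 * (2 / r / ‖q.1 - q.2‖) :=
      mul_le_mul_of_nonneg_left h9 (mul_nonneg (h.p _) (h.p _))
    _ = _ := by ring

lemma TF.bW (h : TF ρ) {Z r : ℝ} (hZ : 0 ≤ Z) (hr : 0 < r) (a : E) :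
    Z * ∫ x, ρ x / ‖x - a‖ ≤ 3 / 5 * (∫ x, ρ x ^ (5 / 3 : ℝ)) + D ρ +
      (Z ^ (5 / 2 : ℝ) * (∫ x, hh r x) + Z ^ 2 / r) := by
  have h1 := integral_mono ((h.iW a).const_mul Z) (((h.j.const_mul (3 / 5)).add
    (((hh_int r).comp_sub_right a).const_mul (Z ^ (5 / 2 : ℝ)))).add ((h.iw hr a).const_mul Z))
    fun x => ptw (h.p x) hZ hr (x - a)
  rw [integral_add' ((h.j.const_mul (3 / 5)).add
    (((hh_int r).comp_sub_right a).const_mul (Z ^ (5 / 2 : ℝ)))) ((h.iw hr a).const_mul Z),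
    integral_add' (h.j.const_mul (3 / 5)) (((hh_int r).comp_sub_right a).const_mul _),
    integral_const_mul, integral_const_mul, integral_const_mul, integral_const_mul,
    integral_sub_right_eq_self (hh r)] at h1
  have h2 := h.far hr a
  generalize ∫ x, ρ x * (max ‖x - a‖ r)⁻¹ = w at h1 h2
  have h3 : Z * w ≤ D ρ + Z ^ 2 / r := by
    rw [div_mul_eq_mul_div, le_div_iff₀ hr] at h2
    have : Z ^ 2 / r = r * (Z / r) ^ 2 := by field_simp
    have h4 : Z = r * (Z / r) := by field_simp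
    rw [this]
    generalize Z / r = y at h4
    rw [h4]
    nlinarith [mul_nonneg hr.le (sq_nonneg (w / 2 - y))]
  linarith

variable {k : ℕ} {z : Fin k → ℝ} {R : Fin k → E}

lemma V_eq' (x : E) : V z R x * ρ x = ∑ j, z j * (ρ x / ‖x - R j‖) := by
  rw [V, Finset.sum_mul]
  exact Finset.sum_congr rfl fun j _ => by ring

lemma TF.iV (h : TF ρ) : Integrable fun x => V z R x * ρ x := by
  simp only [V_eq']
  exact integrable_finsetSum _ fun j _ => (h.iW _).const_mul _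

lemma TF.bV (h : TF ρ) (hz : ∀ j, 0 < z j) (hZ : 0 < ∑ j, z j) {r : ℝ} (hr : 0 < r) :
    ∫ x, V z R x * ρ x ≤ 3 / 5 * (∫ x, ρ x ^ (5 / 3 : ℝ)) + D ρ +
      ((∑ j, z j) ^ (5 / 2 : ℝ) * (∫ x, hh r x) + (∑ j, z j) ^ 2 / r) := by
  simp only [V_eq']
  rw [integral_finsetSum _ fun j _ => (h.iW _).const_mul _]
  refine le_of_mul_le_mul_left ?_ hZ
  rw [Finset.mul_sum]
  refine le_trans (Finset.sum_le_sum fun j _ => ?_) (Finset.sum_mul _ _ _).ge
  rw [integral_const_mul, mul_left_comm]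
  exact mul_le_mul_of_nonneg_left (h.bW hZ.le hr _) (hz j).le

lemma grad_sq (u : E → ℝ) (x : E) :
    ‖gradient u x‖ ^ 2 = ∑ i, (fderiv ℝ u x (EuclideanSpace.single i 1)) ^ 2 := by
  rw [EuclideanSpace.real_norm_sq_eq]
  refine Finset.sum_congr rfl fun i _ => ?_
  rw [← inner_gradient_left, EuclideanSpace.inner_single_right]
  simp

lemma trial : ∃ c : ℝ, 0 < c ∧ ∀ (y : ℝ), 0 < y → ∀ a : E, ∃ u : E → ℝ, ContDiff ℝ (⊤ : ℕ∞) u ∧
    HasCompactSupport u ∧ ∫ x, u x ^ 2 = 1 ∧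
    (∫ x, ‖gradient u x‖ ^ 2) - y * ∫ x, u x ^ 2 / ‖x - a‖ ≤ -c * y ^ 2 := by
  let χ : ContDiffBump (0 : E) := ⟨1, 2, by norm_num, by norm_num⟩
  have h1 : ContDiff ℝ (⊤ : ℕ∞) χ := χ.contDiff
  have h1' : ContDiff ℝ 1 χ := χ.contDiff
  have h2 := χ.hasCompactSupport
  have hN : 0 < ∫ x, χ x ^ 2 := by
    refine Continuous.integral_pos_of_hasCompactSupport_nonneg_nonzero (h1.continuous.pow 2)
      (h2.comp_left (g := fun t : ℝ => t ^ 2) (by simp)) (fun x => sq_nonneg _) (x := 0) ?_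
    simp [χ.one_of_mem_closedBall (mem_closedBall_self χ.rIn_pos.le)]
  have hb := bump h1' h2 one_pos
  have hW : 0 < ∫ x, χ x ^ 2 / ‖x‖ := by
    have h3 := (hb.eW 0).1
    simp only [sub_zero] at h3
    refine lt_of_le_of_ne (integral_nonneg fun x => by positivity) fun h0 => hN.ne' ?_
    have := (integral_eq_zero_iff_of_nonneg (fun x => by positivity) h3).1 h0.symm
    refine integral_eq_zero_of_ae ?_
    filter_upwards [this, Measure.ae_ne volume 0] with x hx hx0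
    exact (div_eq_zero_iff.1 hx).resolve_right (norm_ne_zero_iff.2 hx0)
  obtain ⟨N, hN'⟩ : ∃ N, N = ∫ x, χ x ^ 2 := ⟨_, rfl⟩
  obtain ⟨W, hW'⟩ : ∃ W, W = ∫ x, χ x ^ 2 / ‖x‖ := ⟨_, rfl⟩
  obtain ⟨T, hT'⟩ : ∃ T, T = ∫ x, ‖gradient χ x‖ ^ 2 := ⟨_, rfl⟩
  have hT : 0 ≤ T := hT' ▸ integral_nonneg fun x => sq_nonneg _
  rw [← hN'] at hN
  rw [← hW'] at hW
  refine ⟨W ^ 2 / (4 * (T + 1) * N), by positivity, fun y hy a => ?_⟩
  obtain ⟨s, hs'⟩ : ∃ s, s = y * W / (2 * (T + 1)) := ⟨_, rfl⟩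
  have hs : 0 < s := by rw [hs']; positivity
  obtain ⟨t, ht⟩ : ∃ t, t = √(s ^ 3 / N) := ⟨_, rfl⟩
  have ht2 : t ^ 2 = s ^ 3 / N := by rw [ht, Real.sq_sqrt (by positivity)]
  refine ⟨fun x => t * χ (s • (x - a)),
    contDiff_const.mul (h1.comp ((contDiff_id.sub contDiff_const).const_smul _)),
    ((h2.comp_smul hs.ne').comp_homeomorph (Homeomorph.subRight a)).mul_left, ?_, ?_⟩
  · simp only [mul_pow]
    rw [integral_const_mul, integral_sub_right_eq_self (fun x => χ (s • x) ^ 2),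
      scal (fun x => χ x ^ 2) hs, ← hN', ht2]
    field_simp
  · have e1 : ∀ x, ‖gradient (fun x => t * χ (s • (x - a))) x‖ ^ 2 =
        t ^ 2 * s ^ 2 * ‖gradient χ (s • (x - a))‖ ^ 2 := by
      intro x
      have := (((h1'.differentiable one_ne_zero) (s • (x - a))).hasFDerivAt.comp x
        (((hasFDerivAt_id x).sub_const a).const_smul s)).const_mul t
      simp only [gradient, LinearIsometryEquiv.norm_map]
      rw [show (fun x => t * χ (s • (x - a))) = fun x => t * (χ ∘ (s • fun x => id x - a)) x from rfl,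
        this.fderiv, ContinuousLinearMap.comp_smul, ContinuousLinearMap.comp_id, norm_smul, norm_smul,
        Real.norm_eq_abs, Real.norm_of_nonneg hs.le, mul_pow, mul_pow, sq_abs, mul_assoc]
    have e2 : ∀ x, (t * χ (s • (x - a))) ^ 2 / ‖x - a‖ =
        t ^ 2 * s * (χ (s • (x - a)) ^ 2 / ‖s • (x - a)‖) := by
      intro x
      rw [norm_smul, Real.norm_of_nonneg hs.le]
      rcases eq_or_ne ‖x - a‖ 0 with h | h
      · simp [h]
      · field_simp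
    simp only [e1, e2]
    rw [integral_const_mul, integral_const_mul,
      integral_sub_right_eq_self (fun x => ‖gradient χ (s • x)‖ ^ 2),
      integral_sub_right_eq_self (fun x => χ (s • x) ^ 2 / ‖s • x‖),
      scal (fun x => ‖gradient χ x‖ ^ 2) hs, scal (fun x => χ x ^ 2 / ‖x‖) hs, ← hT', ← hW', ht2]
    have e3 : s ^ 3 / N * s ^ 2 * ((s ^ 3)⁻¹ * T) - y * (s ^ 3 / N * s * ((s ^ 3)⁻¹ * W)) =
        -(W ^ 2 / (4 * (T + 1) * N)) * y ^ 2 - s ^ 2 / N := by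
      rw [hs']
      field_simp
      ring
    rw [e3]
    exact sub_le_self _ (by positivity)

lemma re1 (hz : ∀ j, 0 < z j) : ∃ K : ℝ, ∀ u : E → ℝ, ContDiff ℝ 1 u → HasCompactSupport u →
    Integrable (fun x => ‖gradient u x‖ ^ 2 - V z R x * u x ^ 2) ∧
    -K * ∫ x, u x ^ 2 ≤ ∫ x, ‖gradient u x‖ ^ 2 - V z R x * u x ^ 2 := by
  obtain ⟨c, hc, hK⟩ := r1 1
  have hZ : 0 ≤ ∑ j, z j := Finset.sum_nonneg fun j _ => (hz j).le
  obtain ⟨s, hs, hs1, hs2⟩ : ∃ s : ℝ, 0 < s ∧ s ≤ 1 ∧ s * ((∑ j, z j) * c) ≤ 1 := by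
    refine ⟨min 1 (1 / ((∑ j, z j) * c + 1)), by positivity, min_le_left _ _, ?_⟩
    refine (mul_le_mul_of_nonneg_right (min_le_right _ _) (by positivity)).trans ?_
    rw [div_mul_eq_mul_div, div_le_iff₀ (by positivity)]
    linarith
  refine ⟨(∑ j, z j) * (s ^ 3)⁻¹, fun u h1 h2 => ?_⟩
  have h := bump h1 h2 one_pos
  have h3 := h.bV (R := R) hz (hK s hs (pow_le_one₀ hs.le hs1) h)
  have hT : 0 ≤ ∫ x, ‖gradient u x‖ ^ 2 := integral_nonneg fun x => sq_nonneg _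
  refine ⟨h.g2.norm.integrable_sq.sub h.iV, ?_⟩
  rw [integral_sub h.g2.norm.integrable_sq h.iV]
  nlinarith [mul_le_mul_of_nonneg_right hs2 hT]

lemma cx (hz : ∀ j, 0 < z j) : ∃ K : ℝ, ∀ ψ : E → ℂ, ContDiff ℝ 1 ψ → HasCompactSupport ψ →
    Integrable (fun x => ∑ i, ‖fderiv ℝ ψ x (EuclideanSpace.single i 1)‖ ^ 2 -
      V z R x * ‖ψ x‖ ^ 2) ∧ -K * ∫ x, ‖ψ x‖ ^ 2 ≤
      ∫ x, ∑ i, ‖fderiv ℝ ψ x (EuclideanSpace.single i 1)‖ ^ 2 - V z R x * ‖ψ x‖ ^ 2 := by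
  obtain ⟨K, hK⟩ := re1 (R := R) hz
  refine ⟨K, fun ψ h1 h2 => ?_⟩
  have a1 : ContDiff ℝ 1 (Complex.reCLM ∘ ψ) := Complex.reCLM.contDiff.comp h1
  have b1 : ContDiff ℝ 1 (Complex.imCLM ∘ ψ) := Complex.imCLM.contDiff.comp h1
  have a2 : HasCompactSupport (Complex.reCLM ∘ ψ) := h2.comp_left (map_zero _)
  have b2 : HasCompactSupport (Complex.imCLM ∘ ψ) := h2.comp_left (map_zero _)
  obtain ⟨a3, a4⟩ := hK _ a1 a2
  obtain ⟨b3, b4⟩ := hK _ b1 b2
  have e0 : ∀ w : ℂ, ‖w‖ ^ 2 = w.re ^ 2 + w.im ^ 2 := fun w => by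
    rw [Complex.sq_norm, Complex.normSq_apply, sq, sq]
  have e1 : ∀ x, ∑ i, ‖fderiv ℝ ψ x (EuclideanSpace.single i 1)‖ ^ 2 - V z R x * ‖ψ x‖ ^ 2 =
      (‖gradient (Complex.reCLM ∘ ψ) x‖ ^ 2 - V z R x * (Complex.reCLM ∘ ψ) x ^ 2) +
      (‖gradient (Complex.imCLM ∘ ψ) x‖ ^ 2 - V z R x * (Complex.imCLM ∘ ψ) x ^ 2) := by
    intro x
    have hd := (h1.differentiable one_ne_zero x).hasFDerivAt
    rw [grad_sq, grad_sq, (Complex.reCLM.hasFDerivAt.comp x hd).fderiv,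
      (Complex.imCLM.hasFDerivAt.comp x hd).fderiv]
    simp only [e0, Finset.sum_add_distrib, ContinuousLinearMap.comp_apply, Complex.reCLM_apply,
      Complex.imCLM_apply, Function.comp_apply]
    ring
  have e2 : ∀ x, ‖ψ x‖ ^ 2 = (Complex.reCLM ∘ ψ) x ^ 2 + (Complex.imCLM ∘ ψ) x ^ 2 := fun x => e0 _
  simp only [e1]
  simp only [e2]
  rw [integral_add a3 b3, integral_add (bump a1 a2 one_pos).l2.integrable_sq
    (bump b1 b2 one_pos).l2.integrable_sq]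
  exact ⟨a3.add b3, by linarith⟩

end Pool.Agent.H.MP_f7be6d_mp
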